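import Pool.Agent.H52.CUC

set_option autoImplicit false

/-!
# The choice number of the union of a `k`-choosable and an `l`-choosable graph

`Choosable G k`: `G` is `k`-choosable (every assignment of lists of at least `k` colours to the
vertices admits a proper colouring from the lists).
-/

namespace Pool.Agent.Results.MP_fd001f_co.LinearUnionBound

open Finset Classical

/-- `G` is `k`-choosable. -/
def Choosable {V : Type} (G : SimpleGraph V) (k : ℕ) : Prop :=
  ∀ L : V → Finset ℕ, (∀ v, k ≤ (L v).card) →
    ∃ f : V → ℕ, (∀ v, f v ∈ L v) ∧ ∀ u v, G.Adj u v → f u ≠ f v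

/-- Induced subgraphs of choosable graphs are choosable. -/
theorem choosable_induce {V : Type} (G : SimpleGraph V) (k : ℕ) (hG : Choosable G k)
    (X : Set V) : Choosable (G.induce X) k := by
  intro L hL
  obtain ⟨f, hf1, hf2⟩ := hG (fun v => if h : v ∈ X then L ⟨v, h⟩ else range k) (by
    intro v
    by_cases h : v ∈ X
    · simp only [h, dif_pos]; exact hL _
    · simp only [h, dif_neg, not_false_eq_true, card_range, le_refl])
  refine ⟨fun v => f v.1, ?_, ?_⟩
  · intro v
    have := hf1 v.1
    simp only [v.2, dif_pos] at this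
    exact this
  · intro u v huv
    exact hf2 _ _ huv

/-- Greedy choice of `k`-subsets of the lists along a degenerate graph. -/
theorem greedy {V : Type} (H : SimpleGraph V) (D k : ℕ) (L : V → Finset ℕ)
    (hL : ∀ v, D * k ≤ (L v).card)
    (hD : ∀ X : Finset V, X.Nonempty → ∃ v ∈ X, (X.filter (fun u => H.Adj v u)).card < D) :
    ∀ (n : ℕ) (X : Finset V), X.card = n → ∃ S : V → Finset ℕ,
      (∀ v ∈ X, S v ⊆ L v ∧ (S v).card = k) ∧
        ∀ u ∈ X, ∀ v ∈ X, H.Adj u v → Disjoint (S u) (S v) := by
  intro n
  induction n with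
  | zero =>
    intro X hX
    rw [Finset.card_eq_zero] at hX
    subst hX
    exact ⟨fun _ => ∅, by simp, by simp⟩
  | succ n ih =>
    intro X hX
    obtain ⟨v, hv, hvD⟩ := hD X (Finset.card_pos.1 (by omega))
    obtain ⟨S, hS1, hS2⟩ := ih (X.erase v) (by rw [Finset.card_erase_of_mem hv]; omega)
    set U : Finset ℕ := (X.filter (fun u => H.Adj v u)).biUnion S with hU
    have hUc : U.card ≤ (D - 1) * k := by
      have h1 : U.card ≤ (X.filter (fun u => H.Adj v u)).card * k := by
        rw [hU]
        apply Finset.card_biUnion_le_card_mul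
        intro u hu
        rw [Finset.mem_filter] at hu
        have hne : u ≠ v := fun h => H.loopless.irrefl v (h ▸ hu.2)
        exact (hS1 u (Finset.mem_erase.2 ⟨hne, hu.1⟩)).2.le
      exact h1.trans (Nat.mul_le_mul_right _ (by omega))
    have hk : k ≤ (L v \ U).card := by
      have h1 := Finset.le_card_sdiff U (L v)
      have h2 := hL v
      have h3 : (D - 1) * k + k = D * k := by
        obtain ⟨D', rfl⟩ : ∃ D', D = D' + 1 := ⟨D - 1, by omega⟩
        rw [Nat.add_sub_cancel]; ring
      omega
    obtain ⟨T, hT1, hT2⟩ := Finset.exists_subset_card_eq hk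
    refine ⟨Function.update S v T, ?_, ?_⟩
    · intro u hu
      by_cases huv : u = v
      · subst huv
        rw [Function.update_self]
        exact ⟨hT1.trans Finset.sdiff_subset, hT2⟩
      · rw [Function.update_of_ne huv]
        exact hS1 u (Finset.mem_erase.2 ⟨huv, hu⟩)
    · have hTd : ∀ u ∈ X, H.Adj v u → Disjoint T (S u) := by
        intro u hu hvu
        rw [Finset.disjoint_left]
        intro c hc hc'
        have h1 := hT1 hc
        rw [Finset.mem_sdiff] at h1
        exact h1.2 (Finset.mem_biUnion.2 ⟨u, Finset.mem_filter.2 ⟨hu, hvu⟩, hc'⟩)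
      intro u hu w hw huw
      by_cases h1 : u = v
      · subst h1
        have h2 : w ≠ u := huw.ne'
        rw [Function.update_self, Function.update_of_ne h2]
        exact hTd w hw huw
      · by_cases h2 : w = v
        · subst h2
          rw [Function.update_self, Function.update_of_ne h1]
          exact (hTd u hu huw.symm).symm
        · rw [Function.update_of_ne h1, Function.update_of_ne h2]
          exact hS2 u (Finset.mem_erase.2 ⟨h1, hu⟩) w (Finset.mem_erase.2 ⟨h2, hw⟩) huw

/-- A choosable graph together with a degenerate graph. -/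
theorem union_degenerate {V : Type} [Fintype V] (G H : SimpleGraph V) (D k : ℕ)
    (hG : Choosable G k)
    (hD : ∀ X : Finset V, X.Nonempty → ∃ v ∈ X, (X.filter (fun u => H.Adj v u)).card < D) :
    Choosable (G ⊔ H) (D * k) := by
  intro L hL
  obtain ⟨S, hS1, hS2⟩ := greedy H D k L hL hD _ univ rfl
  obtain ⟨f, hf1, hf2⟩ := hG S (fun v => (hS1 v (Finset.mem_univ _)).2.ge)
  refine ⟨f, fun v => (hS1 v (Finset.mem_univ _)).1 (hf1 v), ?_⟩
  intro u v huv
  rw [SimpleGraph.sup_adj] at huv
  rcases huv with huv | huv
  · exact hf2 u v huv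
  · intro heq
    have := hS2 u (Finset.mem_univ _) v (Finset.mem_univ _) huv
    exact (Finset.disjoint_left.1 this) (hf1 u) (heq ▸ hf1 v)

theorem card_induce {V : Type} [Fintype V] (H : SimpleGraph V) (X : Finset V)
    (v : (X : Set V)) :
    (univ.filter (fun u : (X : Set V) => (H.induce (X : Set V)).Adj v u)).card =
      (X.filter (fun u => H.Adj v.1 u)).card := by
  rw [← Finset.card_map (Function.Embedding.subtype _)]
  congr 1
  ext u
  simp only [Finset.mem_map, Finset.mem_filter, Finset.mem_univ, true_and,
    Function.Embedding.subtype_apply, SimpleGraph.comap_adj]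
  constructor
  · rintro ⟨w, hw, rfl⟩
    exact ⟨w.2, hw⟩
  · rintro ⟨h1, h2⟩
    exact ⟨⟨u, h1⟩, h2, rfl⟩

/-- **The choice number of the union of two graphs.** All graphs are finite.
(1) If `G` is `k`-choosable and `H` is `l`-choosable, then `G ∪ H` is `(84 l³ 4^l) k`-choosable:
for fixed `l` this is linear in `k`.
(2) More generally, if every nonempty `l`-choosable graph has a vertex of degree less than `D`, then
`G ∪ H` is `D k`-choosable for all `k`, all `k`-choosable `G` and all `l`-choosable `H`. -/
theorem result :
    (∀ (V : Type) [Fintype V] (G H : SimpleGraph V) (k l : ℕ), 1 ≤ l → Choosable G k →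
      Choosable H l → Choosable (G ⊔ H) (84 * l ^ 3 * 4 ^ l * k)) ∧
    (∀ l D : ℕ, (∀ (W : Type) [Fintype W] [Nonempty W] (H : SimpleGraph W), Choosable H l →
        ∃ v, (H.neighborSet v).ncard < D) →
      ∀ (V : Type) [Fintype V] (G H : SimpleGraph V) (k : ℕ), Choosable G k → Choosable H l →
        Choosable (G ⊔ H) (D * k)) := by
  refine ⟨?_, ?_⟩
  · intro V _ G H k l hl hG hH
    apply union_degenerate G H _ k hG
    intro X hX
    by_contra hcon
    push Not at hcon
    obtain ⟨x, hx⟩ := hX
    have : Nonempty (X : Set V) := ⟨⟨x, hx⟩⟩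
    refine Pool.Agent.H52.CU.not_choosable (H.induce (X : Set V)) l hl ?_
      (choosable_induce H l hH (X : Set V))
    intro v
    have h1 := hcon v.1 v.2
    rw [← card_induce H X v] at h1
    refine h1.trans (le_of_eq ?_)
    congr 1
  · intro l D hD V _ G H k hG hH
    apply union_degenerate G H _ k hG
    intro X hX
    obtain ⟨x, hx⟩ := hX
    have : Nonempty (X : Set V) := ⟨⟨x, hx⟩⟩
    obtain ⟨v, hv⟩ := hD (X : Set V) (H.induce (X : Set V)) (choosable_induce H l hH (X : Set V))
    refine ⟨v.1, v.2, ?_⟩
    rw [← card_induce H X v]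
    have h2 : ((H.induce (X : Set V)).neighborSet v).ncard =
        (univ.filter (fun u : (X : Set V) => (H.induce (X : Set V)).Adj v u)).card := by
      rw [← Set.ncard_coe_finset]
      congr 1
      ext u
      simp
    rw [← h2]; exact hv

end Pool.Agent.Results.MP_fd001f_co.LinearUnionBound
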